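import Pool.Agent.helper74.VQ.SpecC

/-!
# vq:VUL: localisation of the kernels
-/

set_option autoImplicit false

open scoped MatrixGroups ContDiff Topology UpperHalfPlane ComplexConjugate ENNReal
open UpperHalfPlane MeasureTheory Filter Set

namespace Pool.Agent.VQ

open Pool.Agent.RS

theorem VUL_cd (h : SL(2, ℝ)) (s : ℝ) (hs4 : s ≤ 1 / 4) (hh : h ∈ Bo s) : ‖cd (h • I)‖ ≤ 6 * s := by
  have hentry : |h.1 0 1 + h.1 1 0| ≤ 2 * s ∧ |h.1 0 0 - h.1 1 1| ≤ 2 * s ∧ 3 / 2 ≤ |h.1 0 0 + h.1 1 1| := by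
    rcases hh with hh | hh
    · have h00 := abs_lt.1 (hh 0 0)
      have h01 := abs_lt.1 (hh 0 1)
      have h10 := abs_lt.1 (hh 1 0)
      have h11 := abs_lt.1 (hh 1 1)
      simp only [Matrix.one_apply_eq, ne_eq, zero_ne_one, not_false_eq_true, Matrix.one_apply_ne,
        one_ne_zero, sub_zero] at h00 h01 h10 h11
      refine ⟨abs_le.2 ⟨by linarith [h01.1, h10.1], by linarith [h01.2, h10.2]⟩,
        abs_le.2 ⟨by linarith [h00.1, h11.2], by linarith [h00.2, h11.1]⟩, ?_⟩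
      rw [le_abs]
      left
      linarith [h00.1, h11.1]
    · have h00 := abs_lt.1 (hh 0 0)
      have h01 := abs_lt.1 (hh 0 1)
      have h10 := abs_lt.1 (hh 1 0)
      have h11 := abs_lt.1 (hh 1 1)
      simp only [Matrix.one_apply_eq, ne_eq, zero_ne_one, not_false_eq_true, Matrix.one_apply_ne,
        one_ne_zero, add_zero] at h00 h01 h10 h11
      refine ⟨abs_le.2 ⟨by linarith [h01.1, h10.1], by linarith [h01.2, h10.2]⟩,
        abs_le.2 ⟨by linarith [h00.1, h11.2], by linarith [h00.2, h11.1]⟩, ?_⟩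
      rw [le_abs]
      right
      linarith [h00.2, h11.2]
  obtain ⟨e1, e2, e3⟩ := hentry
  generalize ha : h.1 0 0 = a at *
  generalize hb : h.1 0 1 = b at *
  generalize hc : h.1 1 0 = c at *
  generalize hd : h.1 1 1 = d at *
  have hcoe : ((h • I : ℍ) : ℂ) = ((a : ℂ) * Complex.I + (b : ℂ)) / ((c : ℂ) * Complex.I + (d : ℂ)) := by
    have h1 := coe_specialLinearGroup_apply h I
    rw [h1, ← ha, ← hb, ← hc, ← hd]
    rfl
  have hdet : a * d - b * c = 1 := by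
    have h1 := h.2
    rw [Matrix.det_fin_two] at h1
    rw [← ha, ← hb, ← hc, ← hd]
    linarith
  have hden : (c : ℂ) * Complex.I + (d : ℂ) ≠ 0 := by
    intro h0
    have h1 := congrArg Complex.re h0
    have h2 := congrArg Complex.im h0
    simp at h1 h2
    rw [h1, h2] at hdet
    simp at hdet
  have hden2 : ((b - c : ℝ) : ℂ) + ((a + d : ℝ) : ℂ) * Complex.I ≠ 0 := by
    intro h0
    have h2 := congrArg Complex.im h0
    simp at h2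
    rw [h2] at e3
    norm_num at e3
  have hcd : cd (h • I) = 2 * (((b + c : ℝ) : ℂ) + ((a - d : ℝ) : ℂ) * Complex.I) / (((b - c : ℝ) : ℂ) + ((a + d : ℝ) : ℂ) * Complex.I) := by
    unfold cd
    rw [hcoe]
    have h3 : ((a : ℂ) * Complex.I + (b : ℂ)) / ((c : ℂ) * Complex.I + (d : ℂ)) - Complex.I =
        (((b + c : ℝ) : ℂ) + ((a - d : ℝ) : ℂ) * Complex.I) / ((c : ℂ) * Complex.I + (d : ℂ)) := by
      rw [div_sub' hden]
      congr 1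
      push_cast
      linear_combination (-(c : ℂ)) * Complex.I_mul_I
    have h4 : ((a : ℂ) * Complex.I + (b : ℂ)) / ((c : ℂ) * Complex.I + (d : ℂ)) + Complex.I =
        (((b - c : ℝ) : ℂ) + ((a + d : ℝ) : ℂ) * Complex.I) / ((c : ℂ) * Complex.I + (d : ℂ)) := by
      rw [div_add' _ _ _ hden]
      congr 1
      push_cast
      linear_combination (c : ℂ) * Complex.I_mul_I
    rw [h3, h4, ← mul_div_assoc, div_div_div_cancel_right₀ hden]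
  have hn1 : ‖((b + c : ℝ) : ℂ) + ((a - d : ℝ) : ℂ) * Complex.I‖ ≤ 4 * s := by
    refine (norm_add_le _ _).trans ?_
    rw [norm_mul, Complex.norm_I, mul_one, Complex.norm_real, Complex.norm_real, Real.norm_eq_abs, Real.norm_eq_abs]
    linarith
  have hn2 : 3 / 2 ≤ ‖((b - c : ℝ) : ℂ) + ((a + d : ℝ) : ℂ) * Complex.I‖ := by
    refine e3.trans ?_
    have h5 := Complex.abs_im_le_norm (((b - c : ℝ) : ℂ) + ((a + d : ℝ) : ℂ) * Complex.I)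
    have h6 : (((b - c : ℝ) : ℂ) + ((a + d : ℝ) : ℂ) * Complex.I).im = a + d := by simp
    rwa [h6] at h5
  rw [hcd, norm_div, norm_mul, div_le_iff₀ (by linarith)]
  have hs0 : 0 ≤ s := by linarith [abs_nonneg (b + c)]
  have h7 : ‖(2 : ℂ)‖ = 2 := by simp
  rw [h7]
  nlinarith

/-- the main estimate: a box in the coordinates `(h, ρ)` is contained in a box in the coordinates `(h, E)` -/
theorem VUL_box (hVCD : VCD_stmt) (hVUB : VUB_stmt) (Γ : Subgroup SL(2, ℝ)) (δ : ℝ) (B : ℕ → ℝ) (U : ℍ → ℝ) (hU : Pot Γ δ B U)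
    (hδ : δ ≤ 1 / 10) (g1 g2 : SL(2, ℝ)) (E1 E2 s r : ℝ) (h1 : |E1| ≤ 1 / 8) (h2 : |E2| ≤ 1 / 8) (hs0 : 0 < s)
    (hs : s ≤ 1 / 8) (hr : 2 * s ≤ r) (hb : g1⁻¹ * g2 ∈ Bo s) (hρ : |rho U E1 g1 - rho U E2 g2| < s) :
    Nb r (g1, E1) (g2, E2) := by
  obtain ⟨-, -, k3, -, -, k6, -⟩ := hVUB Γ δ B U hU hδ
  obtain ⟨a1, a2, a3, -, -⟩ := k3 E1 g1 h1
  obtain ⟨b1, b2, b3, -, -⟩ := k3 E2 g2 h2
  have hcd := VUL_cd _ s (by linarith) hb
  have hcd1 : ‖cd ((g1⁻¹ * g2) • I)‖ ≤ 1 := by linarith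
  have hmain := (k6 g1 (cd ((g1⁻¹ * g2) • I)) hcd1).2
  have hcdi : ∀ z : ℍ, cdi (cd z) = z := fun z => (hVCD.1 z).2
  have hcd0 : (cdi 0 : ℍ) = I := by
    rw [← hVCD.2.2.1]
    exact hcdi I
  have e1 : Ug U g1 (cd ((g1⁻¹ * g2) • I)) = U (g2 • I) := by
    unfold Ug
    rw [hcdi, ← mul_smul, mul_inv_cancel_left]
  have e2 : Ug U g1 0 = U (g1 • I) := by
    unfold Ug
    rw [hcd0]
  rw [e1, e2] at hmain
  refine ⟨?_, ?_⟩
  · have hsr : s ≤ r := by linarith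
    rcases hb with hb | hb
    · exact Or.inl fun i j => (hb i j).trans_le hsr
    · exact Or.inr fun i j => (hb i j).trans_le hsr
  · show |E1 - E2| < r
    have hδ0 : δ * ‖cd ((g1⁻¹ * g2) • I)‖ ≤ 6 / 10 * s := by
      nlinarith [norm_nonneg (cd ((g1⁻¹ * g2) • I))]
    have hsq : |rho U E1 g1 ^ 2 - rho U E2 g2 ^ 2| ≤ 12 / 5 * s := by
      have h3 : rho U E1 g1 ^ 2 - rho U E2 g2 ^ 2 = (rho U E1 g1 + rho U E2 g2) * (rho U E1 g1 - rho U E2 g2) := by ring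
      rw [h3, abs_mul, abs_of_nonneg (by linarith)]
      nlinarith [abs_nonneg (rho U E1 g1 - rho U E2 g2)]
    have h4 : 2 * (E1 - E2) = (rho U E1 g1 ^ 2 - rho U E2 g2 ^ 2) + (U (g2 • I) - U (g1 • I)) := by
      rw [a3, b3]; ring
    have h5 : |2 * (E1 - E2)| ≤ 12 / 5 * s + 6 / 10 * s := by
      rw [h4]
      exact (abs_add_le _ _).trans (add_le_add hsq (hmain.trans hδ0))
    rw [abs_mul, abs_two] at h5
    linarith

theorem VUL_conj (f g : ℍ → ℂ) : ∫ z : ℍ, conj (f z) * g z = conj (∫ z : ℍ, f z * conj (g z)) := by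
  rw [← integral_conj]
  refine integral_congr_ae (Eventually.of_forall fun z => ?_)
  show conj (f z) * g z = conj (f z * conj (g z))
  rw [map_mul, Complex.conj_conj]

theorem VUL_proof (hVCD : VCD_stmt) (hVOV : VOV_stmt) (hVFM : VFM_stmt) (hVUB : VUB_stmt) : VUL_stmt := by
  obtain ⟨C0, hC0, hOV⟩ := hVOV
  obtain ⟨C1, hC1, hFM⟩ := hVFM
  have hCC : 1 ≤ C0 * C1 := one_le_mul_of_one_le_of_one_le hC0 hC1
  refine ⟨5 * (C0 * C1), by linarith, ?_⟩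
  intro ch e ζ ζ1 M B hch hRg
  obtain ⟨g1, g2, g3, g4, g5⟩ := hRg
  have hζ1 : 0 < ζ1 := g2.trans_le g3
  have hC1C : C1 ≤ C0 * C1 := by nlinarith
  have hRg1 : Rg C1 e ζ ζ1 := by
    refine ⟨g1, g2, g3, ?_, ?_⟩
    · nlinarith
    · nlinarith
  have hη : 0 < C1 * ζ1 := by positivity
  have hCη : C0 * (C1 * ζ1) ≤ 1 / 5 := by nlinarith
  obtain ⟨K, R1, hR1, hOV1⟩ := hOV (M + 5) (C1 * ζ1) hη (by linarith)
  obtain ⟨R2, hR2, hFM1⟩ := hFM ch K e ζ ζ1 B hch hRg1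
  set x : ℝ := 4 * (C0 * (C1 * ζ1)) with hx
  have hx0 : 0 < x := by positivity
  set R3 : ℝ := (2 : ℝ) ^ (1 / x) with hR3
  refine ⟨max (max R1 R2) (max R3 65536), ?_, ?_⟩
  · exact hR1.trans ((le_max_left _ _).trans (le_max_left _ _))
  intro R δ t Γ D p q hR hD hδ ht0 hte hp hq
  have hRR1 : R1 ≤ R := ((le_max_left _ _).trans (le_max_left _ _)).trans hR
  have hRR2 : R2 ≤ R := ((le_max_right _ _).trans (le_max_left _ _)).trans hR
  have hRR3 : R3 ≤ R := ((le_max_left _ _).trans (le_max_right _ _)).trans hR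
  have hRR4 : 65536 ≤ R := ((le_max_right _ _).trans (le_max_right _ _)).trans hR
  have hRpos : 0 < R := by linarith
  have hR1' : 1 ≤ R := by linarith
  have hR16 : R ^ (-(1 / 4) : ℝ) ≤ 1 / 16 := by
    have h1 : R ^ (-(1 / 4) : ℝ) ≤ (65536 : ℝ) ^ (-(1 / 4) : ℝ) :=
      Real.rpow_le_rpow_of_nonpos (by norm_num) hRR4 (by norm_num)
    have h2 : (65536 : ℝ) ^ (-(1 / 4) : ℝ) = 1 / 16 := by
      have h3 : (65536 : ℝ) = (16 : ℝ) ^ (4 : ℝ) := by norm_num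
      rw [h3, ← Real.rpow_mul (by norm_num)]
      norm_num [Real.rpow_neg_one]
    rwa [h2] at h1
  have hW : ∀ y : SL(2, ℝ) × ℝ, y ∈ GW 2 R → |y.2| ≤ 1 / 8 := by
    intro y hy
    have h1 : y.2 ∈ Wi 2 R := hy.2
    rw [abs_le]
    exact ⟨by linarith [h1.1], by linarith [h1.2]⟩
  set s : ℝ := R ^ (-(1 / 2) + C0 * (C1 * ζ1)) with hs
  set r : ℝ := R ^ (-(1 / 2) + 5 * (C0 * C1) * ζ1) with hr
  have hs0 : 0 < s := Real.rpow_pos_of_pos hRpos _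
  have hs8 : s ≤ 1 / 8 := by
    have h1 : s ≤ R ^ (-(1 / 4) : ℝ) := Real.rpow_le_rpow_of_exponent_le hR1' (by linarith)
    linarith
  have hsr : 2 * s ≤ r := by
    have h1 : r = s * R ^ x := by
      rw [hr, hs, ← Real.rpow_add hRpos, hx]
      congr 1
      ring
    have h2 : (2 : ℝ) ≤ R ^ x := by
      have h3 : (2 : ℝ) = R3 ^ x := by
        rw [hR3, ← Real.rpow_mul (by norm_num), one_div, inv_mul_cancel₀ hx0.ne', Real.rpow_one]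
      rw [h3]
      exact Real.rpow_le_rpow (by positivity) hRR3 hx0.le
    rw [h1]
    nlinarith
  obtain ⟨f1, -, f3, -, -⟩ := hFM1 R δ t Γ D hRR2 hD hδ (by rwa [abs_of_nonneg ht0])
  set m : ℝ := R ^ (3 / 2 + C1 * ζ1) with hm
  have hm0 : 0 ≤ m := (Real.rpow_pos_of_pos hRpos _).le
  obtain ⟨-, -, k3, -, -, -, -⟩ := hVUB Γ δ B D.U hD.pot hδ
  have hrho : ∀ (E : ℝ) (g : SL(2, ℝ)), |E| ≤ 1 / 8 → rho D.U E g ∈ Icc (1 / 2 : ℝ) 2 := by
    intro E g hE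
    obtain ⟨a1, a2, -⟩ := k3 E g hE
    exact ⟨by linarith, by linarith⟩
  have hsize : m * m * R ^ (-1 + 3 * (C1 * ζ1)) ≤ R ^ (2 + 5 * (C0 * C1) * ζ1) := by
    rw [hm, ← Real.rpow_add hRpos, ← Real.rpow_add hRpos]
    refine Real.rpow_le_rpow_of_exponent_le hR1' ?_
    nlinarith
  have hsmall : m * m * R ^ (-(M + 5)) ≤ R ^ (-M) := by
    rw [hm, ← Real.rpow_add hRpos, ← Real.rpow_add hRpos]
    refine Real.rpow_le_rpow_of_exponent_le hR1' ?_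
    nlinarith
  -- two packets
  have core : ∀ (F1 F2 : ℂ → ℂ) (h1 h2 : SL(2, ℝ)) (E1 E2 : ℝ), |E1| ≤ 1 / 8 → |E2| ≤ 1 / 8 →
      Pk K (C1 * ζ1) m R (rho D.U E1 h1) F1 → Pk K (C1 * ζ1) m R (rho D.U E2 h2) F2 →
      ‖∫ z : ℍ, F1 (cd (h1⁻¹ • z)) * conj (F2 (cd (h2⁻¹ • z)))‖ ≤ R ^ (2 + 5 * (C0 * C1) * ζ1) ∧
      ((∫ z : ℍ, F1 (cd (h1⁻¹ • z)) * conj (F2 (cd (h2⁻¹ • z)))) ≠ 0 → dist (h1 • I : ℍ) (h2 • I) ≤ 1) ∧
      (¬Nb r (h1, E1) (h2, E2) → ‖∫ z : ℍ, F1 (cd (h1⁻¹ • z)) * conj (F2 (cd (h2⁻¹ • z)))‖ ≤ R ^ (-M)) := by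
    intro F1 F2 h1 h2 E1 E2 hE1 hE2 hF1 hF2
    obtain ⟨o1, o2, o3⟩ := hOV1 R _ _ m m F1 F2 h1 h2 hRR1 (hrho E1 h1 hE1) (hrho E2 h2 hE2) hm0 hm0 hF1 hF2
    refine ⟨o1.trans hsize, o2, fun hn => (o3 ?_).trans hsmall⟩
    rintro ⟨b1, b2⟩
    exact hn (VUL_box hVCD hVUB Γ δ B D.U hD.pot hδ h1 h2 E1 E2 s r hE1 hE2 hs0 hs8 hsr b1 b2)
  have hpv := f1.pk p hp
  have hfGp := f3.pk p hp
  have hfGq := f3.pk q hq
  rw [hD.fl0] at hfGp hfGq
  -- beams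
  obtain ⟨c1, c2, c3⟩ := core _ _ _ _ p.2 q.2 (hW p hp) (hW q hq) hpv hfGq
  have hI1 : ∫ z : ℍ, conj (psi D ch ζ ζ1 R t p z) * Gp D.U ch ζ R q z =
      conj (∫ z : ℍ, pv D ch ζ ζ1 R t p (cd ((D.fl p.2 t p.1)⁻¹ • z)) * conj (fG D ch ζ R q (cd (q.1⁻¹ • z)))) := by
    rw [VUL_conj]
    rfl
  obtain ⟨d1, -, d3⟩ := core _ _ _ _ p.2 q.2 (hW p hp) (hW q hq) hfGp hfGq
  have hI2 : ∫ z : ℍ, conj (Gp D.U ch ζ R p z) * Gp D.U ch ζ R q z =
      conj (∫ z : ℍ, fG D ch ζ R p (cd (p.1⁻¹ • z)) * conj (fG D ch ζ R q (cd (q.1⁻¹ • z)))) := by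
    rw [VUL_conj]
    rfl
  have hnc : ∀ w : ℂ, ‖conj w‖ = ‖w‖ := fun w => Complex.norm_conj w
  refine ⟨?_, ?_, ?_, ?_, ?_⟩
  · rw [hI1, hnc]; exact c1
  · intro h
    refine c2 fun h0 => h ?_
    rw [hI1, h0, map_zero]
  · intro h
    rw [hI1, hnc]
    exact c3 h
  · rw [hI2, hnc]; exact d1
  · intro h
    rw [hI2, hnc]
    exact d3 h

end Pool.Agent.VQ
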