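import Pool.Agent.helper74.VQ.SpecA

/-!
# vq:VLP: the Laplacian in the disc coordinate
-/

set_option autoImplicit false

open scoped MatrixGroups ContDiff Topology UpperHalfPlane ComplexConjugate ENNReal
open UpperHalfPlane MeasureTheory Filter Set

namespace Pool.Agent.VQ

open Pool.Agent.RS

theorem VLP_real {m : ℂ → ℂ} {c w : ℂ} (hm : HasDerivAt m c w) :
    HasFDerivAt m (ContinuousLinearMap.mul ℝ ℂ c) w := by
  have h1 := hm.hasFDerivAt.restrictScalars ℝ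
  refine h1.congr_fderiv ?_
  refine ContinuousLinearMap.ext fun e => ?_
  simp [mul_comm]

theorem VLP_quad (D : ℂ →L[ℝ] ℂ →L[ℝ] ℂ) (c : ℂ) :
    D c c + D (c * Complex.I) (c * Complex.I) = ((‖c‖ ^ 2 : ℝ) : ℂ) * (D 1 1 + D Complex.I Complex.I) := by
  have h1 : c = c.re • (1 : ℂ) + c.im • Complex.I := by
    apply Complex.ext <;> simp
  have h2 : c * Complex.I = (-c.im) • (1 : ℂ) + c.re • Complex.I := by
    apply Complex.ext <;> simp
  have h3 : ‖c‖ ^ 2 = c.re ^ 2 + c.im ^ 2 := by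
    rw [← Complex.normSq_eq_norm_sq, Complex.normSq_apply]
    ring
  rw [h3, h2]
  have h4 : D c c = D (c.re • (1 : ℂ) + c.im • Complex.I) (c.re • (1 : ℂ) + c.im • Complex.I) := by
    rw [← h1]
  rw [h4]
  simp only [map_add, map_smul, add_apply, smul_apply]
  simp only [Complex.real_smul]
  push_cast
  ring

theorem VLP_holo (h m : ℂ → ℂ) (U : Set ℂ) (hU : IsOpen U) (v : ℂ) (hv : v ∈ U)
    (hm : DifferentiableOn ℂ m U) (hh : ContDiffAt ℝ 2 h (m v)) (c : ℂ) (hc : HasDerivAt m c v) :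
    fderiv ℝ (fderiv ℝ fun w => h (m w)) v 1 1 +
      fderiv ℝ (fderiv ℝ fun w => h (m w)) v Complex.I Complex.I =
    ((‖c‖ ^ 2 : ℝ) : ℂ) * (fderiv ℝ (fderiv ℝ h) (m v) 1 1 +
      fderiv ℝ (fderiv ℝ h) (m v) Complex.I Complex.I) := by
  have hhd : ∀ᶠ u in 𝓝 (m v), DifferentiableAt ℝ h u := by
    filter_upwards [hh.eventually (by decide)] with u hu
    exact hu.differentiableAt (by decide)
  have h1 : ∀ᶠ w in 𝓝 v, DifferentiableAt ℝ h (m w) := hc.continuousAt.eventually hhd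
  have h2 : ∀ᶠ w in 𝓝 v, w ∈ U := hU.mem_nhds hv
  have hE : fderiv ℝ (fun w => h (m w)) =ᶠ[𝓝 v]
      fun w => (fderiv ℝ h (m w)).comp (ContinuousLinearMap.mul ℝ ℂ (deriv m w)) := by
    filter_upwards [h1, h2] with w hw1 hw2
    have h3 : HasDerivAt m (deriv m w) w := (hm.differentiableAt (hU.mem_nhds hw2)).hasDerivAt
    exact (hw1.hasFDerivAt.comp w (VLP_real h3)).fderiv
  have hdm : DifferentiableAt ℂ (deriv m) v := (hm.deriv hU).differentiableAt (hU.mem_nhds hv)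
  have hcd : deriv m v = c := hc.deriv
  have hfd : DifferentiableAt ℝ (fderiv ℝ h) (m v) :=
    (hh.fderiv_right (m := 1) (by norm_num)).differentiableAt (by decide)
  have e1 : HasFDerivAt (fun w => fderiv ℝ h (m w))
      ((fderiv ℝ (fderiv ℝ h) (m v)).comp (ContinuousLinearMap.mul ℝ ℂ c)) v :=
    hfd.hasFDerivAt.comp v (VLP_real hc)
  have e2 : HasFDerivAt (fun w => ContinuousLinearMap.mul ℝ ℂ (deriv m w))
      ((ContinuousLinearMap.mul ℝ ℂ).comp (ContinuousLinearMap.mul ℝ ℂ (deriv (deriv m) v))) v :=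
    (ContinuousLinearMap.mul ℝ ℂ).hasFDerivAt.comp v (VLP_real hdm.hasDerivAt)
  rw [hE.fderiv_eq, (e1.clm_comp e2).fderiv, ← VLP_quad]
  have h5 : deriv (deriv m) v * Complex.I * Complex.I = -deriv (deriv m) v := by
    rw [mul_assoc, Complex.I_mul_I, mul_neg_one]
  simp only [add_apply, ContinuousLinearMap.comp_apply,
    ContinuousLinearMap.compL_apply, ContinuousLinearMap.flip_apply, ContinuousLinearMap.mul_apply',
    hcd, mul_one, h5, map_neg]
  ring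

/-- the Cayley transform -/
theorem VLP_C {w : ℂ} (hw : ‖w‖ < 2) : (2 : ℂ) - w ≠ 0 ∧
    0 < (Complex.I * (2 + w) / (2 - w)).im ∧
    (Complex.I * (2 + w) / (2 - w)).im = (1 - ‖w‖ ^ 2 / 4) * ‖4 * Complex.I / (2 - w) ^ 2‖ := by
  have h0 : (2 : ℂ) - w ≠ 0 := by
    intro h
    have h1 : w = 2 := (sub_eq_zero.1 h).symm
    rw [h1] at hw
    norm_num at hw
  have hn : 0 < Complex.normSq (2 - w) := Complex.normSq_pos.2 h0
  have h2 : (Complex.I * (2 + w) / (2 - w)).im = (4 - ‖w‖ ^ 2) / Complex.normSq (2 - w) := by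
    rw [← Complex.normSq_eq_norm_sq, Complex.div_im]
    rw [← sub_eq_zero]
    have h3 : Complex.normSq (2 - w) ≠ 0 := hn.ne'
    field_simp
    simp only [Complex.normSq_apply, Complex.mul_re, Complex.mul_im, Complex.add_re,
      Complex.add_im, Complex.sub_re, Complex.sub_im, Complex.I_re, Complex.I_im, Complex.re_ofNat,
      Complex.im_ofNat]
    ring
  have h3 : ‖4 * Complex.I / (2 - w) ^ 2‖ = 4 / Complex.normSq (2 - w) := by
    rw [norm_div, norm_mul, Complex.norm_I, norm_pow, ← Complex.normSq_eq_norm_sq]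
    norm_num
  have h4 : 0 < 4 - ‖w‖ ^ 2 := by
    nlinarith [norm_nonneg w]
  refine ⟨h0, ?_, ?_⟩
  · rw [h2]
    exact div_pos h4 hn
  · rw [h2, h3]
    ring

theorem VLP_moe (a b c d : ℝ) (hdet : a * d - b * c = 1) (z : ℂ) (hz : 0 < z.im) :
    (c : ℂ) * z + d ≠ 0 ∧
    (((a : ℂ) * z + b) / ((c : ℂ) * z + d)).im = z.im / Complex.normSq ((c : ℂ) * z + d) := by
  have h0 : (c : ℂ) * z + d ≠ 0 := by
    intro h
    have h1 := congrArg Complex.im h
    have h2 := congrArg Complex.re h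
    simp only [Complex.add_im, Complex.mul_im, Complex.ofReal_re, Complex.ofReal_im, zero_mul,
      add_zero, Complex.zero_im, mul_eq_zero] at h1
    rcases h1 with h1 | h1
    · subst h1
      simp only [Complex.ofReal_zero, zero_mul, zero_add, Complex.ofReal_re, Complex.zero_re] at h2
      subst h2
      simp at hdet
    · exact hz.ne' h1
  refine ⟨h0, ?_⟩
  have h3 : Complex.normSq ((c : ℂ) * z + d) ≠ 0 := (Complex.normSq_pos.2 h0).ne'
  rw [Complex.div_im, ← sub_div, div_left_inj' h3]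
  simp only [Complex.mul_re, Complex.mul_im, Complex.add_re, Complex.add_im, Complex.ofReal_re,
    Complex.ofReal_im]
  linear_combination z.im * hdet

theorem VLP_m (g : SL(2, ℝ)) : ∃ m : ℂ → ℂ, DifferentiableOn ℂ m (Metric.ball 0 2) ∧
    (∀ w, ‖w‖ < 2 → m w = ((g • cdi w : ℍ) : ℂ)) ∧
    ∀ v, ‖v‖ < 2 → ∃ c, HasDerivAt m c v ∧ (g • cdi v : ℍ).im = (1 - ‖v‖ ^ 2 / 4) * ‖c‖ := by
  have hdetR : g 0 0 * g 1 1 - g 0 1 * g 1 0 = 1 := by
    have h1 := g.det_coe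
    rwa [Matrix.det_fin_two] at h1
  have hmoe := VLP_moe (g 0 0) (g 0 1) (g 1 0) (g 1 1) hdetR
  let C : ℂ → ℂ := fun w => Complex.I * (2 + w) / (2 - w)
  have hCz : ∀ w, ‖w‖ < 2 → ((cdi w : ℍ) : ℂ) = C w := by
    intro w hw
    unfold cdi
    rw [ofComplex_apply_of_im_pos (VLP_C hw).2.1]
  have hval : ∀ w, ‖w‖ < 2 → ((g • cdi w : ℍ) : ℂ) =
      (((g 0 0 : ℝ) : ℂ) * C w + ((g 0 1 : ℝ) : ℂ)) / (((g 1 0 : ℝ) : ℂ) * C w + ((g 1 1 : ℝ) : ℂ)) := by
    intro w hw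
    rw [coe_specialLinearGroup_apply, hCz w hw]
    rfl
  have hdet : ((g 0 0 : ℝ) : ℂ) * ((g 1 1 : ℝ) : ℂ) - ((g 0 1 : ℝ) : ℂ) * ((g 1 0 : ℝ) : ℂ) = 1 := by
    exact_mod_cast hdetR
  generalize ((g 0 0 : ℝ) : ℂ) = a at hmoe hval hdet
  generalize ((g 0 1 : ℝ) : ℂ) = b at hmoe hval hdet
  generalize ((g 1 0 : ℝ) : ℂ) = c at hmoe hval hdet
  generalize ((g 1 1 : ℝ) : ℂ) = d at hmoe hval hdet
  have hden : ∀ w, ‖w‖ < 2 → c * C w + d ≠ 0 := fun w hw => (hmoe (C w) (VLP_C hw).2.1).1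
  have hC : ∀ v, ‖v‖ < 2 → HasDerivAt C (4 * Complex.I / (2 - v) ^ 2) v := by
    intro v hv
    have e1 : HasDerivAt (fun w : ℂ => Complex.I * (2 + w)) (Complex.I * 1) v :=
      ((hasDerivAt_id v).const_add 2).const_mul Complex.I
    have e2 : HasDerivAt (fun w : ℂ => 2 - w) (-1) v := (hasDerivAt_id v).const_sub 2
    have e3 := e1.div e2 (VLP_C hv).1
    refine e3.congr_deriv ?_
    congr 1
    ring
  have hm : ∀ v, ‖v‖ < 2 → HasDerivAt (fun w => (a * C w + b) / (c * C w + d))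
      (4 * Complex.I / (2 - v) ^ 2 / (c * C v + d) ^ 2) v := by
    intro v hv
    have e1 : HasDerivAt (fun w => a * C w + b) (a * (4 * Complex.I / (2 - v) ^ 2)) v :=
      ((hC v hv).const_mul a).add_const b
    have e2 : HasDerivAt (fun w => c * C w + d) (c * (4 * Complex.I / (2 - v) ^ 2)) v :=
      ((hC v hv).const_mul c).add_const d
    have e3 := e1.div e2 (hden v hv)
    refine e3.congr_deriv ?_
    congr 1
    linear_combination (4 * Complex.I / (2 - v) ^ 2) * hdet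
  refine ⟨fun w => (a * C w + b) / (c * C w + d), ?_, ?_, ?_⟩
  · intro w hw
    have hw' : ‖w‖ < 2 := by simpa using hw
    exact (hm w hw').differentiableAt.differentiableWithinAt
  · intro w hw
    rw [hval w hw]
  · intro v hv
    obtain ⟨h0, h1, h2⟩ := VLP_C hv
    refine ⟨_, hm v hv, ?_⟩
    have h5 : (g • cdi v : ℍ).im = (C v).im / Complex.normSq (c * C v + d) := by
      have h6 : (g • cdi v : ℍ).im = ((g • cdi v : ℍ) : ℂ).im := rfl
      rw [h6, hval v hv]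
      exact (hmoe (C v) h1).2
    have h7 : ‖4 * Complex.I / (2 - v) ^ 2 / (c * C v + d) ^ 2‖ =
        ‖4 * Complex.I / (2 - v) ^ 2‖ / Complex.normSq (c * C v + d) := by
      rw [norm_div (4 * Complex.I / (2 - v) ^ 2), norm_pow (c * C v + d), Complex.normSq_eq_norm_sq]
    have h8 : (C v).im = (1 - ‖v‖ ^ 2 / 4) * ‖4 * Complex.I / (2 - v) ^ 2‖ := h2
    rw [h5, h8, h7, mul_div_assoc]

theorem VLP_proof (hVCD : VCD_stmt) : VLP_stmt := by
  obtain ⟨hcd1, hcd2, -, -, -, -, -, -, -, -, hcdC⟩ := hVCD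
  have main : ∀ (φ : ℍ → ℂ) (g : SL(2, ℝ)) (v : ℂ), QU.CD 2 φ → ‖v‖ < 2 →
      ContDiffAt ℝ 2 (fun w : ℂ => φ (g • cdi w)) v ∧
      QU.lap φ (g • cdi v) = -(((1 - ‖v‖ ^ 2 / 4) ^ 2 : ℝ) : ℂ) *
        (fderiv ℝ (fderiv ℝ fun w : ℂ => φ (g • cdi w)) v 1 1 +
          fderiv ℝ (fderiv ℝ fun w : ℂ => φ (g • cdi w)) v Complex.I Complex.I) := by
    intro φ g v hφ hv
    obtain ⟨m, hmd, hmv, hmc⟩ := VLP_m g
    obtain ⟨c, hc, him⟩ := hmc v hv
    have hball : Metric.ball (0 : ℂ) 2 ∈ 𝓝 v :=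
      Metric.isOpen_ball.mem_nhds (by simpa using hv)
    have hmem : m v ∈ {w : ℂ | 0 < w.im} := by
      rw [hmv v hv]
      exact (g • cdi v).im_pos
    have hopen : IsOpen {w : ℂ | 0 < w.im} := isOpen_lt continuous_const Complex.continuous_im
    have hφm : ContDiffAt ℝ 2 (QU.onC φ) (m v) := hφ.contDiffAt (hopen.mem_nhds hmem)
    have hE : (fun w : ℂ => φ (g • cdi w)) =ᶠ[𝓝 v] fun w => QU.onC φ (m w) := by
      filter_upwards [hball] with w hw
      have hw' : ‖w‖ < 2 := by simpa using hw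
      show φ (g • cdi w) = φ (ofComplex (m w))
      rw [hmv w hw', ofComplex_apply]
    have hmR : ContDiffAt ℝ 2 m v := by
      have h1 : ContDiffOn ℂ 2 m (Metric.ball 0 2) := hmd.contDiffOn Metric.isOpen_ball
      exact (h1.contDiffAt hball).restrict_scalars ℝ
    have hholo := VLP_holo (QU.onC φ) m (Metric.ball 0 2) Metric.isOpen_ball v
      (by simpa using hv) hmd hφm c hc
    refine ⟨(hφm.comp v hmR).congr_of_eventuallyEq hE, ?_⟩
    rw [hE.fderiv.fderiv_eq, hholo]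
    have h2 : QU.lap φ (g • cdi v) = -(((g • cdi v : ℍ).im ^ 2 : ℝ) : ℂ) *
        (fderiv ℝ (fderiv ℝ (QU.onC φ)) (m v) 1 1 +
          fderiv ℝ (fderiv ℝ (QU.onC φ)) (m v) Complex.I Complex.I) := by
      unfold QU.lap
      rw [hmv v hv, Complex.real_smul]
      push_cast
      ring
    rw [h2, him]
    push_cast
    ring
  refine ⟨main, fun A g hA => ?_⟩
  have hCDφ : QU.CD 2 (fun z : ℍ => A (cd (g⁻¹ • z))) := by
    have h1 : ContDiffOn ℝ 2 (QU.onC (fun z : ℍ => cd (g⁻¹ • z))) {w : ℂ | 0 < w.im} :=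
      (hcdC g⁻¹).of_le (WithTop.coe_le_coe.2 le_top)
    exact hA.comp_contDiffOn h1
  refine ⟨hCDφ, fun z => ?_⟩
  have hv := (hcd1 (g⁻¹ • z)).1
  have hz : g • cdi (cd (g⁻¹ • z)) = z := by
    rw [(hcd1 (g⁻¹ • z)).2, smul_inv_smul]
  have h1 := (main _ g (cd (g⁻¹ • z)) hCDφ hv).2
  rw [hz] at h1
  have hball : Metric.ball (0 : ℂ) 2 ∈ 𝓝 (cd (g⁻¹ • z)) :=
    Metric.isOpen_ball.mem_nhds (by simpa using hv)
  have hE : (fun w : ℂ => A (cd (g⁻¹ • (g • cdi w)))) =ᶠ[𝓝 (cd (g⁻¹ • z))] A := by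
    filter_upwards [hball] with w hw
    have hw' : ‖w‖ < 2 := by simpa using hw
    rw [inv_smul_smul, (hcd2 w hw').1]
  rw [hE.fderiv.fderiv_eq] at h1
  exact h1

end Pool.Agent.VQ
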