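import Pool.Agent.helper93.VQ.Spec4c

/-!
# vq:RLL: large deviations along regular curves
-/

set_option autoImplicit false

open scoped MatrixGroups ContDiff Topology UpperHalfPlane ComplexConjugate ENNReal
open UpperHalfPlane MeasureTheory Filter Set

namespace Pool.Agent.VQ

open Pool.Agent.RS
open Pool.Agent.RPQ (mean)
open Pool.Agent.VQE (nm)

open Classical in
theorem RLL_nbd (D : Dyn) (E T0 : ℝ) (B : Set SL(2, ℝ)) (hadd : ∀ s t g, D.fl E (s + t) g = D.fl E s (D.fl E t g))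
    (hz : ∀ g, D.fl E 0 g = g) (n : ℕ) : ∀ g : SL(2, ℝ),
    nbd (D.fl E T0) B n g = ((Finset.range n).filter fun k : ℕ => D.fl E (k * T0) g ∈ B).card := by
  induction n with
  | zero => intro g; simp [nbd]
  | succ n ih =>
    intro g
    rw [Finset.card_filter, Finset.sum_range_succ']
    have h0 : D.fl E (((0 : ℕ) : ℝ) * T0) g = g := by
      rw [Nat.cast_zero, zero_mul, hz]
    rw [h0]
    have h1 : ∀ k : ℕ, D.fl E (((k + 1 : ℕ) : ℝ) * T0) g = D.fl E ((k : ℝ) * T0) (D.fl E T0 g) := by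
      intro k
      rw [← hadd]
      congr 1
      push_cast
      ring
    simp only [h1]
    rw [← Finset.card_filter, ← ih (D.fl E T0 g)]
    show (if g ∈ B then 1 else 0) + nbd (D.fl E T0) B n (D.fl E T0 g) = _
    rw [add_comm]

theorem RLL_mean (F : Set ℍ) (h : ℍ → ℝ) (hh : ∀ z, 0 ≤ h z ∧ h z ≤ 1) : 0 ≤ mean F h ∧ mean F h ≤ 1 := by
  unfold mean
  have h0 : 0 ≤ ∫ z in F, h z := integral_nonneg fun z => (hh z).1
  refine ⟨div_nonneg h0 ENNReal.toReal_nonneg, ?_⟩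
  by_cases hF : volume F = ⊤
  · rw [hF, ENNReal.toReal_top, div_zero]
    exact zero_le_one
  refine div_le_one_of_le₀ ?_ ENNReal.toReal_nonneg
  have h1 : ‖∫ z in F, h z‖ ≤ 1 * (volume F).toReal := by
    refine norm_setIntegral_le_of_norm_le_const (lt_top_iff_ne_top.2 hF) fun z _ => ?_
    rw [Real.norm_eq_abs, abs_of_nonneg (hh z).1]
    exact (hh z).2
  rw [one_mul, Real.norm_eq_abs, abs_of_nonneg h0] at h1
  exact h1

theorem RLL_av (D : Dyn) (h : ℍ → ℝ) (hc : Continuous h) (E T m : ℝ) (g : SL(2, ℝ)) (hfl : Continuous fun t => D.fl E t g)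
    (hT : 0 < T) : |∫ t in (0 : ℝ)..T, (h (D.fl E t g • I) - m)| = T * |avP D h T (g, E) - m| := by
  have hcc : Continuous fun t => h (D.fl E t g • I) := hc.comp (hfl.smul continuous_const)
  rw [intervalIntegral.integral_sub (hcc.intervalIntegrable _ _) (continuous_const.intervalIntegrable _ _),
    intervalIntegral.integral_const]
  have e1 : (∫ t in (0 : ℝ)..T, h (D.fl E t g • I)) - (T - 0) • m = T * (avP D h T (g, E) - m) := by
    unfold avP
    show _ = T * (T⁻¹ * (∫ t in (0 : ℝ)..T, h (D.fl E t g • I)) - m)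
    rw [mul_sub, mul_inv_cancel_left₀ hT.ne', sub_zero, smul_eq_mul]
  rw [e1, abs_mul, abs_of_pos hT]

theorem RLL_proof (hRFF : RFF_stmt) (hRLC : RLC_stmt) (hRUW : RUW_stmt) (hRVA : RVA_stmt) (hRWI : RWI_stmt) : RLL_stmt := by
  intro Γ F hΓ hF
  classical
  obtain ⟨K, δ1, hK, hδ1, hFF⟩ := hRFF Γ hΓ
  have hK0 : 0 < K := by linarith
  set δ0 := min δ1 (1 / (10000 * K)) with hδ0def
  have hδ0 : 0 < δ0 := lt_min hδ1 (by positivity)
  set d := K * δ0 with hd
  have hd0 : 0 < d := by positivity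
  have hd1 : d ≤ 1 / 10000 := by
    have h1 : δ0 ≤ 1 / (10000 * K) := min_le_right _ _
    calc d ≤ K * (1 / (10000 * K)) := mul_le_mul_of_nonneg_left h1 hK0.le
      _ = 1 / 10000 := by field_simp
  refine ⟨δ0, hδ0, fun h e hh he => ?_⟩
  obtain ⟨L, hL⟩ := hh.lip
  set Lh := max L 0 with hLhdef
  have hLh0 : 0 ≤ Lh := le_max_right _ _
  have hLh : ∀ z w, |h z - h w| ≤ Lh * dist z w := fun z w =>
    (hL z w).trans (mul_le_mul_of_nonneg_right (le_max_left _ _) dist_nonneg)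
  have hhc : Continuous h := hh.inv.1
  have hexp : 0 < Real.exp 1 := Real.exp_pos 1
  have h2e1 : 1 ≤ 2 * Real.exp 1 := by linarith [Real.add_one_le_exp (1 : ℝ)]
  have h2e0 : 0 < 2 * Real.exp 1 := by linarith
  set v0 : ℝ := (2 * Real.exp 1) ^ (-(8 / e)) with hv0def
  have hv0 : 0 < v0 := Real.rpow_pos_of_pos h2e0 _
  set l0 : ℝ := min (1 / 400) (e / (80 * (Lh + 1))) with hl0def
  have hl0 : 0 < l0 := lt_min (by norm_num) (by positivity)
  have hl0a : l0 ≤ 1 / 400 := min_le_left _ _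
  have hl0b : 20 * Lh * l0 ≤ e / 4 := by
    have h1 : l0 ≤ e / (80 * (Lh + 1)) := min_le_right _ _
    calc 20 * Lh * l0 ≤ 20 * (Lh + 1) * (e / (80 * (Lh + 1))) := by
          refine mul_le_mul (by linarith) h1 hl0.le (by positivity)
      _ = e / 4 := by field_simp; norm_num
  refine ⟨v0, l0, hv0, hl0, hl0a, fun T0 E0 e2 hT0 hE0 he2 => ?_⟩
  have hT00 : 0 < T0 := by linarith
  set μ := min E0 (d / 4) with hμ
  have hμ0 : 0 < μ := lt_min hE0 (by positivity)
  refine ⟨e2 / (4 * T0), max 1 (max ((2 / μ) ^ (4 : ℝ)) (Real.exp (T0 / e2 * (8 / e + 2)))), by positivity,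
    le_max_left _ _, ?_⟩
  intro B R D hR hD hU E γ x b c ℓ v v' hE hγ hvv hl
  have hR1 : 1 ≤ R := (le_max_left _ _).trans hR
  have hR2 : (2 / μ) ^ (4 : ℝ) ≤ R := ((le_max_left _ _).trans (le_max_right _ _)).trans hR
  have hR3 : Real.exp (T0 / e2 * (8 / e + 2)) ≤ R := ((le_max_right _ _).trans (le_max_right _ _)).trans hR
  have hR0 : 0 < R := by linarith
  have hEμ : |E| ≤ μ := by
    refine hE.trans ?_
    have h1 : R ^ (-(1 / 4) : ℝ) ≤ ((2 / μ) ^ (4 : ℝ)) ^ (-(1 / 4) : ℝ) :=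
      Real.rpow_le_rpow_of_nonpos (by positivity) hR2 (by norm_num)
    have h2 : ((2 / μ) ^ (4 : ℝ)) ^ (-(1 / 4) : ℝ) = μ / 2 := by
      rw [← Real.rpow_mul (by positivity)]
      have h3 : (4 : ℝ) * (-(1 / 4) : ℝ) = -1 := by norm_num
      rw [h3, Real.rpow_neg_one, inv_div]
    rw [h2] at h1
    linarith
  have hEE : |E| ≤ E0 := hEμ.trans (min_le_left _ _)
  have hEd : |E| ≤ d / 4 := hEμ.trans (min_le_right _ _)
  have hF1 : FF d D := hFF δ0 B D hδ0 (min_le_left _ _) hD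
  have hadd : ∀ s t g, D.fl E (s + t) g = D.fl E s (D.fl E t g) := fun s t g => hF1.add E s t g hEd
  have hzero : ∀ g, D.fl E 0 g = g := fun g => hF1.zero E g
  have hfl : ∀ g, Continuous fun t => D.fl E t g := by
    intro g
    have h1 : Continuous fun t : ℝ => ((E, t, g) : ℝ × ℝ × SL(2, ℝ)) := by fun_prop
    exact hF1.cont.comp_continuous h1 fun t => hEd
  obtain ⟨m0, m1⟩ := RLL_mean F h hh.bd
  set m : ℝ := mean F h with hm
  set z : ℝ := (2 * Real.exp 1) ^ (8 / e) with hz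
  have hz0 : 0 < z := Real.rpow_pos_of_pos h2e0 _
  have hz1 : 1 ≤ z := Real.one_le_rpow h2e1 (by positivity)
  have hzv : z * v0 = 1 := by
    rw [hz, hv0def, ← Real.rpow_add h2e0]
    simp
  set Bs : Set SL(2, ℝ) := {g | 3 / 4 * e ≤ |avP D h T0 (g, E) - m|} with hBs
  set Bs' : Set SL(2, ℝ) := {g | e / 2 ≤ |avP D h T0 (g, E) - m|} with hBs'
  -- time
  set τ : ℝ := e2 * Real.log R with hτ
  have hlog : T0 / e2 * (8 / e + 2) ≤ Real.log R := (Real.le_log_iff_exp_le hR0).2 hR3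
  have hτT : T0 * (8 / e + 2) ≤ τ := by
    have h1 := mul_le_mul_of_nonneg_left hlog he2.le
    calc T0 * (8 / e + 2) = e2 * (T0 / e2 * (8 / e + 2)) := by field_simp
      _ ≤ τ := h1
  have h8e : 0 < 8 / e := by positivity
  have hτ0 : 0 < τ := lt_of_lt_of_le (by positivity) hτT
  set n : ℕ := ⌊τ / T0⌋₊ with hn
  have hn1 : (n : ℝ) * T0 ≤ τ := by
    have h1 : (n : ℝ) ≤ τ / T0 := Nat.floor_le (by positivity)
    rwa [le_div_iff₀ hT00] at h1
  have hn2 : τ ≤ ((n : ℝ) + 1) * T0 := by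
    have h1 : τ / T0 < (n : ℝ) + 1 := Nat.lt_floor_add_one _
    rw [div_lt_iff₀ hT00] at h1
    exact h1.le
  have hτT' : 8 / e + 2 ≤ τ / T0 := by
    rw [le_div_iff₀ hT00]
    linarith
  have hn3 : 8 / e + 1 ≤ (n : ℝ) := by
    have h1 : τ / T0 < (n : ℝ) + 1 := Nat.lt_floor_add_one _
    linarith
  have hn4 : 8 ≤ e * n := by
    have h1 : 8 / e ≤ (n : ℝ) := by linarith
    rw [div_le_iff₀ he] at h1
    linarith
  have hn5 : τ / (2 * T0) ≤ (n : ℝ) := by
    have h1 : τ / T0 < (n : ℝ) + 1 := Nat.lt_floor_add_one _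
    have h2 : τ / (2 * T0) = (τ / T0) / 2 := by field_simp
    rw [h2]
    linarith
  -- counting
  have hcount : ∀ g : SL(2, ℝ), (g, E) ∈ BadP D F h e τ → (2 * Real.exp 1) ^ n ≤ z ^ (nbd (D.fl E T0) Bs n g) := by
    intro g hg
    have hg' : e ≤ |avP D h τ (g, E) - m| := hg
    have hφc : Continuous fun t => h (D.fl E t g • I) - m := (hhc.comp ((hfl g).smul continuous_const)).sub continuous_const
    have hφb : ∀ t, |h (D.fl E t g • I) - m| ≤ 1 := by
      intro t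
      have h1 := hh.bd (D.fl E t g • I)
      rw [abs_le]
      exact ⟨by linarith [h1.1], by linarith [h1.2]⟩
    have hbig : e * τ ≤ |∫ t in (0 : ℝ)..τ, (h (D.fl E t g • I) - m)| := by
      rw [RLL_av D h hhc E τ m g (hfl g) hτ0]
      nlinarith
    have h1 := hRWI (fun t => h (D.fl E t g • I) - m) e T0 τ n hφc hφb he hT00 hn1 hn2 hn4 hbig
    have h2 : ((Finset.range n).filter fun k : ℕ => 3 / 4 * e * T0 ≤ |∫ t in (k * T0)..((k + 1) * T0), (h (D.fl E t g • I) - m)|).card ≤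
        nbd (D.fl E T0) Bs n g := by
      rw [RLL_nbd D E T0 Bs hadd hzero n g]
      refine Finset.card_le_card fun k hk => ?_
      rw [Finset.mem_filter] at hk ⊢
      refine ⟨hk.1, ?_⟩
      have h3 := hk.2
      have h4 : ∫ t in (k * T0)..((k + 1) * T0), (h (D.fl E t g • I) - m) =
          ∫ t in (0 : ℝ)..T0, (h (D.fl E t (D.fl E (k * T0) g) • I) - m) := by
        have h5 := intervalIntegral.integral_comp_add_right (a := 0) (b := T0) (fun t => h (D.fl E t g • I) - m) (k * T0)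
        rw [zero_add, show T0 + (k : ℝ) * T0 = (k + 1) * T0 by ring] at h5
        rw [← h5]
        refine intervalIntegral.integral_congr fun t _ => ?_
        show h (D.fl E (t + k * T0) g • I) - m = _
        rw [hadd]
      rw [h4, RLL_av D h hhc E T0 m _ (hfl _) hT00] at h3
      show 3 / 4 * e ≤ |avP D h T0 (D.fl E (k * T0) g, E) - m|
      have h6 : T0 * (3 / 4 * e) ≤ T0 * |avP D h T0 (D.fl E (k * T0) g, E) - m| := by linarith
      exact le_of_mul_le_mul_left h6 hT00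
    have h3 : e / 8 * n ≤ (nbd (D.fl E T0) Bs n g : ℝ) := h1.trans (by exact_mod_cast h2)
    have h4 : z ^ (e / 8 * n) ≤ z ^ (nbd (D.fl E T0) Bs n g : ℝ) := Real.rpow_le_rpow_of_exponent_le hz1 h3
    rw [Real.rpow_natCast] at h4
    have h5 : z ^ (e / 8 * n) = (2 * Real.exp 1) ^ n := by
      rw [hz, ← Real.rpow_mul h2e0.le]
      have h6 : 8 / e * (e / 8 * n) = (n : ℝ) := by field_simp
      rw [h6, Real.rpow_natCast]
    rwa [h5] at h4
  -- the first hypothesis of RLC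
  have hyp1 : ∀ (γ : ℝ → SL(2, ℝ)) (x b c ℓ x' b' c' ℓ' : ℝ → ℝ), RG 2 γ x b c ℓ →
      RG 2 (fun v => D.fl E T0 (γ v)) x' b' c' ℓ' → ∀ u w : ℝ, |ℓ' w - ℓ' u| ≤ 2 * l0 → γ u ∈ Bs → γ w ∈ Bs' := by
    intro γ x b c ℓ x' b' c' ℓ' h1 h2 u w huw hu
    have hk := hRVA d D hF1 hd0 hd1 h Lh hLh0 hLh E T0 γ x b c ℓ x' b' c' ℓ' hEd hT0 h1 h2
    obtain ⟨a1, a2⟩ := abs_le.1 huw
    have hclose : |avP D h T0 (γ u, E) - avP D h T0 (γ w, E)| ≤ e / 4 := by
      rcases le_total u w with h3 | h3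
      · refine (hk u w h3 (by linarith)).trans ?_
        have h4 : 10 * Lh * (ℓ' w - ℓ' u) ≤ 10 * Lh * (2 * l0) := mul_le_mul_of_nonneg_left a2 (by positivity)
        linarith
      · rw [abs_sub_comm]
        refine (hk w u h3 (by linarith)).trans ?_
        have h4 : 10 * Lh * (ℓ' u - ℓ' w) ≤ 10 * Lh * (2 * l0) := mul_le_mul_of_nonneg_left (by linarith) (by positivity)
        linarith
    have hu' : 3 / 4 * e ≤ |avP D h T0 (γ u, E) - m| := hu
    show e / 2 ≤ |avP D h T0 (γ w, E) - m|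
    have h5 : |avP D h T0 (γ u, E) - m| ≤ |avP D h T0 (γ u, E) - avP D h T0 (γ w, E)| + |avP D h T0 (γ w, E) - m| :=
      abs_sub_le _ _ _
    linarith
  have hyp2 : ∀ (γ : ℝ → SL(2, ℝ)) (x b c ℓ : ℝ → ℝ), RG 2 γ x b c ℓ → ∀ v v' : ℝ, v < v' → l0 ≤ ℓ v' - ℓ v →
      ℓ v' - ℓ v ≤ 2 * l0 → volume {u : ℝ | u ∈ Icc v v' ∧ γ u ∈ Bs'} ≤ ENNReal.ofReal (v0 * (v' - v)) := by
    intro γ x b c ℓ h1 v v' h2 h3 h4
    exact hRUW D F h (e / 2) v0 l0 T0 E0 E γ x b c ℓ v v' hl0 hl0a hv0.le hU hEE h1 h2 h3 h4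
  have hmain := hRLC d D hF1 hd0 hd1 E T0 l0 v0 z Bs Bs' hEd hT0 hl0 hl0a hv0.le hz1 hyp1 hyp2 n γ x b c ℓ v v' hγ hvv hl
  have hvv0 : 0 ≤ v' - v := by linarith
  set a : ℝ := ((2 * Real.exp 1) ^ n)⁻¹ with ha
  have ha0 : 0 < a := by positivity
  calc ∫⁻ u in Icc v v', (BadP D F h e τ).indicator (fun _ => 1) (γ u, E)
      ≤ ∫⁻ u in Icc v v', ENNReal.ofReal a * ENNReal.ofReal (z ^ nbd (D.fl E T0) Bs n (γ u)) := by
        refine lintegral_mono fun u => ?_
        by_cases hu : (γ u, E) ∈ BadP D F h e τ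
        · rw [indicator_of_mem hu, ← ENNReal.ofReal_mul ha0.le, ← ENNReal.ofReal_one]
          refine ENNReal.ofReal_le_ofReal ?_
          have h1 := hcount _ hu
          calc (1 : ℝ) = a * (2 * Real.exp 1) ^ n := by
                rw [ha, inv_mul_cancel₀ (by positivity)]
            _ ≤ a * z ^ nbd (D.fl E T0) Bs n (γ u) := mul_le_mul_of_nonneg_left h1 ha0.le
        · rw [indicator_of_notMem hu]
          exact zero_le
    _ = ENNReal.ofReal a * ∫⁻ u in Icc v v', ENNReal.ofReal (z ^ nbd (D.fl E T0) Bs n (γ u)) :=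
        lintegral_const_mul' _ _ ENNReal.ofReal_ne_top
    _ ≤ ENNReal.ofReal a * ENNReal.ofReal ((1 + z * v0) ^ n * (v' - v)) := by gcongr
    _ = ENNReal.ofReal (a * ((1 + z * v0) ^ n * (v' - v))) := (ENNReal.ofReal_mul ha0.le).symm
    _ ≤ ENNReal.ofReal (R ^ (-(2 * (e2 / (4 * T0)))) * (v' - v)) := by
        refine ENNReal.ofReal_le_ofReal ?_
        rw [hzv, ← mul_assoc]
        refine mul_le_mul_of_nonneg_right ?_ hvv0
        have h1 : a * (1 + 1 : ℝ) ^ n = Real.exp (-(n : ℝ)) := by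
          rw [ha, mul_pow, mul_inv, ← Real.exp_nat_mul, mul_one, Real.exp_neg]
          have h2 : ((2 : ℝ) ^ n) ≠ 0 := by positivity
          rw [one_add_one_eq_two]
          field_simp
        rw [h1, Real.rpow_def_of_pos hR0]
        refine Real.exp_le_exp.2 ?_
        have h3 : Real.log R * -(2 * (e2 / (4 * T0))) = -(τ / (2 * T0)) := by
          rw [hτ]
          field_simp
          ring
        rw [h3]
        linarith

end Pool.Agent.VQ
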